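import Pool.Agent.LibLOB.A5
import Pool.Agent.LibLB.Base0
import Pool.Agent.LibCov80.Loc

/-! LOC-base: the facts in terms of `LibLB.locAlg` and `LibLB.closedPts`. -/

set_option autoImplicit false

open Pool.Agent.LibGMM Pool.Agent.LibK Pool.Agent.LibL Pool.Agent.LibLB Pool.Agent.LibKB

namespace Pool.Agent.LibLOB

variable {L : Type} [Field L] [Algebra ℂ L]

theorem locAlg_eq (Y : NormalModel L) (p : Y.Pt) : LibLOB.locAlg Y p = LibLB.locAlg Y p := rfl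

theorem locAlg_eq_cov (Y : NormalModel L) (p : Y.Pt) : LibCov80.locAlg Y p = LibLB.locAlg Y p := rfl

theorem ptsOf_eq (Y : NormalModel L) : ptsOf Y = closedPts Y := by
  ext x
  constructor
  · rintro ⟨p, hp, h⟩
    exact ⟨p, hp, h.symm⟩
  · rintro ⟨p, hp, h⟩
    exact ⟨p, hp, h.symm⟩

theorem closedPts_nonempty (Y : NormalModel L) : (closedPts Y).Nonempty := by
  rw [← ptsOf_eq]
  exact ptsOf_nonempty Y

variable {Y : NormalModel L}

theorem closedPts_coord (hY : IsSmoothSurface Y) : ∀ x ∈ closedPts Y, ∃ a b, RLR x a b := by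
  rw [← ptsOf_eq]
  exact exists_rlr hY

theorem closedPts_ess : ∀ x ∈ closedPts Y, ∀ ν, ν ∈ Ess x ↔ ν ∈ primes Y ∧ x ≤ ν.ring := by
  rw [← ptsOf_eq]
  exact ess_ptsOf

theorem closedPts_centre (hY : IsSmoothSurface Y) : ∀ V : ValuationSubring L,
    (∀ c : ℂ, algebraMap ℂ L c ∈ V) → V ≠ ⊤ →
    (∃ x ∈ closedPts Y, VDom x V) ∨ ∃ ν ∈ primes Y, ∀ f, f ∈ V ↔ 0 ≤ ν.ord f := by
  rw [← ptsOf_eq]
  exact centre_ptsOf hY

theorem closedPts_infPts (hY : IsSmoothSurface Y) :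
    ∀ ν ∈ primes Y, {x | x ∈ closedPts Y ∧ x ≤ ν.ring}.Infinite := by
  rw [← ptsOf_eq]
  exact infPts_ptsOf hY

end Pool.Agent.LibLOB
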