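import Pool.Agent.LibLOB.A3

/-! LOC-base: prime divisors through closed points, centres of valuation rings, infinitely many
closed points on a prime divisor. -/

set_option autoImplicit false

open Pool.Agent.LibGMM Pool.Agent.LibK Pool.Agent.LibL Pool.Agent.LibLB Pool.Agent.LibKB

namespace Pool.Agent.LibLOB

variable {L : Type} [Field L] [Algebra ℂ L]

/-- The centre of a valuation ring which contains a chart. -/
theorem exists_centre_val (Y : NormalModel L) (V : ValuationSubring L) (i : Y.ι)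
    (h : ∀ a ∈ chart Y.g i, a ∈ V) : ∃ p : Y.Pt, p.i = i ∧ (∀ x ∈ locAlg Y p, x ∈ V) ∧
      ∀ a : chart Y.g p.i, a ∈ p.P ↔ (a : L) = 0 ∨ (a : L)⁻¹ ∉ V := by
  have hval : ∀ a : chart Y.g i, V.valuation (a : L) < 1 ↔ (a : L) = 0 ∨ (a : L)⁻¹ ∉ V := by
    intro a
    by_cases ha : (a : L) = 0
    · simp [ha]
    rw [← V.valuation_le_one_iff, map_inv₀]
    have h0 : V.valuation (a : L) ≠ 0 := (Valuation.ne_zero_iff _).2 ha
    rw [inv_le_one₀ (zero_lt_iff.2 h0), not_le]
    simp [ha]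
  let P : Ideal (chart Y.g i) :=
    { carrier := {a | V.valuation (a : L) < 1}
      add_mem' := by
        intro a b ha hb
        simp only [Set.mem_ofPred_eq] at *
        exact Valuation.map_add_lt _ ha hb
      zero_mem' := by simp
      smul_mem' := by
        intro c a ha
        simp only [Set.mem_ofPred_eq, smul_eq_mul, MulMemClass.coe_mul, map_mul] at *
        have hc : V.valuation (c : L) ≤ 1 := (V.valuation_le_one_iff _).2 (h c c.2)
        exact mul_lt_one_of_nonneg_of_lt_one_right hc zero_le ha }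
  have hmem : ∀ a : chart Y.g i, a ∈ P ↔ V.valuation (a : L) < 1 := fun a => Iff.rfl
  have hP : P.IsPrime := by
    constructor
    · rw [Ne, Ideal.eq_top_iff_one, hmem]
      simp
    · intro a b hab
      rw [hmem] at hab
      rw [hmem, hmem]
      by_contra hcon
      push Not at hcon
      have h1 : V.valuation (a : L) = 1 :=
        le_antisymm ((V.valuation_le_one_iff _).2 (h a a.2)) hcon.1
      have h2 : V.valuation (b : L) = 1 :=
        le_antisymm ((V.valuation_le_one_iff _).2 (h b b.2)) hcon.2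
      rw [MulMemClass.coe_mul, map_mul, h1, h2] at hab
      simp at hab
  refine ⟨⟨i, P, hP⟩, rfl, ?_, fun a => (hmem a).trans (hval a)⟩
  rintro x ⟨a, b, hb, rfl⟩
  have hb' : ¬ ((b : L) = 0 ∨ (b : L)⁻¹ ∉ V) := fun hcon => hb (((hmem b).trans (hval b)).2 hcon)
  push Not at hb'
  rw [div_eq_mul_inv]
  exact V.mul_mem _ _ (h a a.2) hb'.2

/-- Two closed points of a chart with the same local ring are equal. -/
theorem locAlg_le_iff (Y : NormalModel L) (i : Y.ι) (P Q : Ideal (chart Y.g i)) (hP : P.IsPrime)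
    (hQ : Q.IsPrime) : locAlg Y ⟨i, P, hP⟩ ≤ locAlg Y ⟨i, Q, hQ⟩ ↔ Q ≤ P := by
  constructor
  · intro h a ha
    by_contra haP
    obtain ⟨c, d, hd, h2⟩ := h (inv_mem_locAlg (Y := Y) (p := ⟨i, P, hP⟩) haP)
    have h3 : (a : L) ≠ 0 := coe_ne_zero_of_notMem Y ⟨i, P, hP⟩ haP
    have h4 : (d : L) ≠ 0 := coe_ne_zero_of_notMem Y ⟨i, Q, hQ⟩ hd
    apply hd
    have h5 : d = a * c := by
      apply Subtype.ext
      push_cast
      field_simp at h2
      exact h2
    rw [h5]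
    exact Q.mul_mem_right _ ha
  · rintro h x ⟨a, b, hb, rfl⟩
    exact ⟨a, b, fun hbQ => hb (h hbQ), rfl⟩

theorem ptsOf_nonempty (Y : NormalModel L) : (ptsOf Y).Nonempty := by
  obtain ⟨i⟩ := Y.ne
  obtain ⟨M, hM⟩ := Ideal.exists_maximal (chart Y.g i)
  exact ⟨_, ⟨i, M, hM.isPrime⟩, hM, rfl⟩

theorem exists_rlr {Y : NormalModel L} (hY : IsSmoothSurface Y) :
    ∀ x ∈ ptsOf Y, ∃ a b, RLR x a b := by
  rintro _ ⟨p, hp, rfl⟩
  exact rlr_locAlg hY p hp

/-- The prime divisors through `p` are the discrete valuations whose ring is a localisation of the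
local ring of `p`. -/
theorem mem_ess_locAlg (Y : NormalModel L) (p : Y.Pt) (ν : DVal L) :
    ν ∈ Ess (locAlg Y p) ↔ ν ∈ primes Y ∧ locAlg Y p ≤ ν.ring := by
  constructor
  · rintro ⟨h1, h2⟩
    refine ⟨?_, h1⟩
    obtain ⟨q, hqi, hq⟩ := Y.exists_centre' ν p.i (fun j => h1 (Y.ratio_mem_loc p j))
    refine ⟨q, hq, fun x hx => ?_⟩
    obtain ⟨i, P, hP⟩ := p
    obtain ⟨i', Q, hQ⟩ := q
    obtain rfl : i' = i := hqi
    obtain ⟨u, ⟨a, b, hb, rfl⟩, v, ⟨c, d, hd, rfl⟩, hv0, hv, rfl⟩ := h2 x hx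
    have hb0 := coe_ne_zero_of_notMem Y ⟨i', P, hP⟩ hb
    have hd0 := coe_ne_zero_of_notMem Y ⟨i', P, hP⟩ hd
    have hc0 : (c : L) ≠ 0 := by
      intro h
      apply hv0
      rw [h, zero_div]
    have hunit : ∀ z : chart Y.g i', z ∉ P → ν.ord (z : L) = 0 := by
      intro z hz
      have h3 : 0 ≤ ν.ord (z : L) := h1 (chart_le_locAlg Y ⟨i', P, hP⟩ z.2)
      have h4 : 0 ≤ ν.ord ((z : L)⁻¹) := h1 (inv_mem_locAlg (Y := Y) (p := ⟨i', P, hP⟩) hz)
      rw [ν.ord_inv] at h4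
      omega
    have hc : ν.ord (c : L) = 0 := by
      rw [ν.ord_div hc0 hd0, hunit d hd] at hv
      omega
    refine ⟨a * d, b * c, ?_, ?_⟩
    · intro hbc
      rcases (hq (b * c)).2.1 hbc with h5 | h5
      · have h6 : (b : L) * c = 0 := congrArg Subtype.val h5
        exact mul_ne_zero hb0 hc0 h6
      · have h6 : ν.ord ((b * c : chart Y.g i') : L) = 0 := by
          push_cast
          rw [ν.ord_mul _ _ hb0 hc0, hunit b hb, hc]
          rfl
        rw [h6] at h5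
        exact lt_irrefl _ h5
    · push_cast
      field_simp
  · rintro ⟨h1, h2⟩
    refine ⟨h2, fun f hf => ?_⟩
    obtain ⟨q, hqi, hq⟩ := Y.exists_centre' ν p.i (fun j => h2 (Y.ratio_mem_loc p j))
    have hq' : chart Y.g q.i = chart Y.g p.i := by rw [hqi]
    obtain ⟨a, b, hb, hab⟩ := Y.mem_loc_of_isCentre ν h1 q hq f hf
    have h3 := hq b
    have h4 : ¬ (b = 0 ∨ 0 < ν.ord (b : L)) := fun h => hb (h3.2.2 h)
    push Not at h4
    refine ⟨a, ?_, b, ?_, coe_ne_zero_of_notMem Y q hb, le_antisymm h4.2 h3.1, hab⟩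
    · exact chart_le_locAlg Y p (hq'.le a.2)
    · exact chart_le_locAlg Y p (hq'.le b.2)

theorem ess_ptsOf {Y : NormalModel L} : ∀ x ∈ ptsOf Y, ∀ ν, ν ∈ Ess x ↔ ν ∈ primes Y ∧ x ≤ ν.ring := by
  rintro _ ⟨p, hp, rfl⟩ ν
  exact mem_ess_locAlg Y p ν

theorem finDiv_primes (Y : NormalModel L) : FinDiv (primes Y) := by
  intro f hf
  exact Y.finite_ord_ne (Units.mk0 f hf)

/-- Every valuation ring over `ℂ` is a prime divisor or dominates a closed point. -/
theorem centre_ptsOf {Y : NormalModel L} (hY : IsSmoothSurface Y) (V : ValuationSubring L)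
    (hV : ∀ c : ℂ, algebraMap ℂ L c ∈ V) (htop : V ≠ ⊤) :
    (∃ x ∈ ptsOf Y, VDom x V) ∨ ∃ ν ∈ primes Y, ∀ f, f ∈ V ↔ 0 ≤ ν.ord f := by
  obtain ⟨i, hi⟩ := Y.exists_index V
  have hchart : ∀ a ∈ chart Y.g i, a ∈ V := by
    intro a ha
    unfold chart at ha
    induction ha using Algebra.adjoin_induction with
    | mem x hx => obtain ⟨j, rfl⟩ := hx; exact hi j
    | algebraMap r => exact hV r
    | add x y _ _ h1 h2 => exact V.add_mem _ _ h1 h2
    | mul x y _ _ h1 h2 => exact V.mul_mem _ _ h1 h2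
  obtain ⟨p, rfl, hle, hP⟩ := exists_centre_val Y V i hchart
  have h0 : p.P ≠ ⊥ := by
    intro h0
    apply htop
    rw [eq_top_iff]
    intro z _
    obtain ⟨a, ha, b, hb, hb0, rfl⟩ := Y.frac p.i z
    have h1 : (⟨b, hb⟩ : chart Y.g p.i) ∉ p.P := by
      rw [h0, Ideal.mem_bot]
      intro h
      exact hb0 (congrArg Subtype.val h)
    rw [div_eq_mul_inv]
    exact V.mul_mem _ _ (hchart a ha) (hle _ (inv_mem_locAlg h1))
  by_cases hm : p.P.IsMaximal
  · left
    refine ⟨_, ⟨p, hm, rfl⟩, hle, ?_⟩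
    rintro f ⟨a, b, hb, rfl⟩ hf
    by_cases ha0 : (a : L) = 0
    · right
      rw [ha0, zero_div]
    left
    intro hinv
    have ha : a ∈ p.P := by
      by_contra ha
      apply hf
      rw [inv_div]
      exact ⟨b, a, ha, rfl⟩
    have h1 : (a : L)⁻¹ ∉ V := ((hP a).1 ha).resolve_left ha0
    apply h1
    have hb0 := coe_ne_zero_of_notMem Y p hb
    have hbinv : (b : L)⁻¹ ∈ V := hle _ (inv_mem_locAlg hb)
    have h2 : (a : L)⁻¹ = ((a : L) / b)⁻¹ * (b : L)⁻¹ := by
      field_simp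
    rw [h2]
    exact V.mul_mem _ _ hinv hbinv
  · right
    obtain ⟨ν, h1, h2, h3⟩ := exists_primeDiv_of_prime hY p h0 hm
    refine ⟨ν, h1, fun f => ⟨fun hf => ?_, fun hf => hle f ((h3 f).2 hf)⟩⟩
    by_contra hneg
    push Not at hneg
    -- `f⁻¹` is in the maximal ideal of `ν`
    have hf0 : f ≠ 0 := by
      rintro rfl
      rw [ν.ord_zero] at hneg
      exact lt_irrefl _ hneg
    obtain ⟨a, b, hb, hab⟩ := (h3 f⁻¹).2 (by rw [ν.ord_inv]; omega)
    have hb0 := coe_ne_zero_of_notMem Y p hb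
    have ha0 : (a : L) ≠ 0 := by
      intro h
      rw [h, zero_div, inv_eq_zero] at hab
      exact hf0 hab
    have hbord : ν.ord (b : L) = 0 := by
      have h4 := (h2 b).1
      have h5 : ¬ (0 < ν.ord (b : L)) := fun h6 => hb ((h2 b).2.2 (Or.inr h6))
      omega
    have haord : 0 < ν.ord (a : L) := by
      have h4 := ν.ord_div ha0 hb0
      rw [← hab, ν.ord_inv, hbord] at h4
      omega
    have haP : a ∈ p.P := (h2 a).2.2 (Or.inr haord)
    apply ((hP a).1 haP).resolve_left ha0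
    have h5 : (a : L)⁻¹ = f * (b : L)⁻¹ := by
      have h6 : (a : L) = f⁻¹ * b := by
        rw [hab]; field_simp
      rw [h6, mul_inv, inv_inv]
    rw [h5]
    exact V.mul_mem _ _ hf (hle _ (inv_mem_locAlg hb))

/-- The centre of a prime divisor is not maximal. -/
theorem not_isMaximal_of_primeDiv {Y : NormalModel L} (hY : IsSmoothSurface Y) {ν : DVal L}
    (hν : ν ∈ primes Y) (p : Y.Pt) (hp : Y.IsCentre ν p) : ¬ p.P.IsMaximal := by
  intro hm
  obtain ⟨a, b, h⟩ := rlr_locAlg hY p hm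
  have hloc : ∀ x, 0 ≤ ν.ord x → x ∈ locAlg Y p := fun x hx => Y.mem_loc_of_isCentre ν hν p hp x hx
  have hle : ∀ x ∈ locAlg Y p, 0 ≤ ν.ord x := fun x hx => Y.loc_le_of_isCentre ν p hp x hx
  -- `a` and `b` have positive order
  have hpos : ∀ z ∈ locAlg Y p, z ≠ 0 → (∃ u ∈ locAlg Y p, ∃ v ∈ locAlg Y p, z = a * u + b * v) →
      0 < ν.ord z := by
    rintro z hz hz0 ⟨u, hu, v, hv, h1⟩
    rcases (hle z hz).lt_or_eq with h2 | h2
    · exact h2
    exfalso
    have h3 : z⁻¹ ∈ locAlg Y p := hloc _ (by rw [ν.ord_inv]; omega)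
    apply h.nonunit (u * z⁻¹) ((locAlg Y p).mul_mem hu h3) (v * z⁻¹) ((locAlg Y p).mul_mem hv h3)
    rw [← mul_assoc, ← mul_assoc, ← add_mul, ← h1, mul_inv_cancel₀ hz0]
  have hb0 : b ≠ 0 := by
    rintro rfl
    obtain ⟨r, hr, h1⟩ := h.reg 0 (Subalgebra.zero_mem _) 1 (Subalgebra.one_mem _) (by ring)
    exact h.nonunit r hr 0 (Subalgebra.zero_mem _) (by rw [← h1]; ring)
  have hanz : 0 < ν.ord a := hpos a h.memA h.a_ne
    ⟨1, Subalgebra.one_mem _, 0, Subalgebra.zero_mem _, by ring⟩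
  -- either `b / a` or `a / b` is in the local ring
  rcases le_total (ν.ord a) (ν.ord b) with hab | hab
  · have h1 : b / a ∈ locAlg Y p := hloc _ (by rw [ν.ord_div hb0 h.a_ne]; omega)
    obtain ⟨r, hr, h2⟩ := h.reg (b / a) h1 1 (Subalgebra.one_mem _) (by
      have := h.a_ne
      field_simp)
    exact h.nonunit r hr 0 (Subalgebra.zero_mem _) (by rw [← h2]; ring)
  · have h1 : a / b ∈ locAlg Y p := hloc _ (by rw [ν.ord_div h.a_ne hb0]; omega)
    obtain ⟨r, hr, h2⟩ := h.reg 1 (Subalgebra.one_mem _) (a / b) h1 (by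
      field_simp)
    -- `1 = b r`
    have h3 : b * r = 1 := by
      have := h.a_ne
      field_simp at h2
      exact h2.symm
    exact h.nonunit 0 (Subalgebra.zero_mem _) r hr (by rw [h3]; ring)

/-- A prime divisor contains infinitely many closed points. -/
theorem infPts_ptsOf {Y : NormalModel L} (hY : IsSmoothSurface Y) :
    ∀ ν ∈ primes Y, {x | x ∈ ptsOf Y ∧ x ≤ ν.ring}.Infinite := by
  classical
  intro ν hν hfin
  obtain ⟨p, hp⟩ := Y.exists_centre ν
  have hmax := not_isMaximal_of_primeDiv hY hν p hp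
  have hPp := p.prime
  have hFT := chartFT Y p.i
  have hJ : IsJacobsonRing (chart Y.g p.i) := isJacobsonRing_of_finiteType (A := ℂ)
  -- the maximal ideals containing the centre
  let S : Set (Ideal (chart Y.g p.i)) := {M | p.P ≤ M ∧ M.IsMaximal}
  have hS : S.Finite := by
    have hinj : ∀ M ∈ S, ∀ M' ∈ S, (∀ (h : M.IsPrime) (h' : M'.IsPrime),
        locAlg Y ⟨p.i, M, h⟩ = locAlg Y ⟨p.i, M', h'⟩) → M = M' := by
      intro M hM M' hM' h
      have h1 := h hM.2.isPrime hM'.2.isPrime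
      exact le_antisymm ((locAlg_le_iff Y p.i M' M _ _).1 h1.symm.le)
        ((locAlg_le_iff Y p.i M M' _ _).1 h1.le)
    let F : Ideal (chart Y.g p.i) → Subalgebra ℂ L := fun M =>
      if h : M.IsPrime then locAlg Y ⟨p.i, M, h⟩ else ⊤
    refine Set.Finite.of_finite_image (f := F) (hfin.subset ?_) ?_
    · rintro _ ⟨M, ⟨hM1, hM2⟩, rfl⟩
      have h1 : F M = locAlg Y ⟨p.i, M, hM2.isPrime⟩ := dif_pos hM2.isPrime
      rw [h1]
      refine ⟨⟨_, hM2, rfl⟩, ?_⟩
      intro x hx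
      have h2 : x ∈ locAlg Y p := (locAlg_le_iff Y p.i M p.P hM2.isPrime p.prime).2 hM1 hx
      exact Y.loc_le_of_isCentre ν p hp x h2
    · intro M hM M' hM' h
      refine hinj M hM M' hM' fun h1 h2 => ?_
      have e1 : F M = locAlg Y ⟨p.i, M, h1⟩ := dif_pos h1
      have e2 : F M' = locAlg Y ⟨p.i, M', h2⟩ := dif_pos h2
      rw [← e1, ← e2]
      exact h
  have hjac : p.P.jacobson = p.P := hJ.out hPp.isRadical
  have h1 : sInf S = p.P := hjac
  obtain ⟨M, hM, hMP⟩ : ∃ M ∈ S, M ≤ p.P := by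
    have h2 : hS.toFinset.inf id ≤ p.P := by
      rw [← h1, Finset.inf_id_eq_sInf, Set.Finite.coe_toFinset]
    obtain ⟨M, hM, h3⟩ := (Ideal.IsPrime.inf_le' hPp).1 h2
    exact ⟨M, (Set.Finite.mem_toFinset _).1 hM, h3⟩
  have h2 : M = p.P := le_antisymm hMP hM.1
  exact hmax (h2 ▸ hM.2)

end Pool.Agent.LibLOB
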