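import Mathlib

/-! LOC-base: the maximal ideals of an affine surface have height two. -/

set_option autoImplicit false

namespace Pool.Agent.LibLOB

open MvPolynomial in
theorem exists_prime_lt_mvPolynomial {s : ℕ} (hs : 2 ≤ s) (m : Ideal (MvPolynomial (Fin s) ℂ))
    (hm : m.IsMaximal) : ∃ p : Ideal (MvPolynomial (Fin s) ℂ), p.IsPrime ∧ p ≠ ⊥ ∧ p < m := by
  classical
  obtain ⟨x, hx⟩ := MvPolynomial.isMaximal_iff_eq_vanishingIdeal_singleton.1 hm
  let i0 : Fin s := ⟨0, by omega⟩
  let i1 : Fin s := ⟨1, by omega⟩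
  have h01 : i1 ≠ i0 := by
    intro h
    have := congrArg Fin.val h
    simp [i0, i1] at this
  let φ : MvPolynomial (Fin s) ℂ →ₐ[ℂ] Polynomial ℂ :=
    MvPolynomial.aeval fun i => if i = i0 then Polynomial.C (x i) else
      Polynomial.X + Polynomial.C (x i)
  have hmem : ∀ f : MvPolynomial (Fin s) ℂ, f ∈ m ↔ MvPolynomial.aeval x f = 0 := by
    intro f
    rw [hx, MvPolynomial.mem_vanishingIdeal_iff]
    simp
  have hev : ∀ f : MvPolynomial (Fin s) ℂ, Polynomial.aeval (0 : ℂ) (φ f) =
      MvPolynomial.aeval x f := by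
    intro f
    have h1 : (Polynomial.aeval (0 : ℂ)).comp φ = MvPolynomial.aeval x := by
      apply MvPolynomial.algHom_ext
      intro i
      simp only [AlgHom.comp_apply, φ, MvPolynomial.aeval_X]
      split_ifs <;> simp
    rw [← h1]
    rfl
  refine ⟨RingHom.ker φ, RingHom.ker_isPrime _, ?_, ?_⟩
  · intro h
    have h1 : X i0 - C (x i0) ∈ RingHom.ker φ := by
      rw [RingHom.mem_ker, map_sub]
      simp [φ]
    rw [h, Ideal.mem_bot, sub_eq_zero] at h1
    have h2 := congrArg (MvPolynomial.totalDegree) h1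
    simp at h2
  · refine lt_of_le_of_ne ?_ ?_
    · intro f hf
      rw [RingHom.mem_ker] at hf
      rw [hmem, ← hev, hf, map_zero]
    · intro h
      have h1 : X i1 - C (x i1) ∈ m := by
        rw [hmem]
        simp
      rw [← h, RingHom.mem_ker, map_sub] at h1
      simp [φ, h01] at h1

theorem exists_prime_between {A L : Type} [CommRing A] [IsDomain A] [Algebra ℂ A]
    [Algebra.FiniteType ℂ A] [Field L] [Algebra ℂ L] [Algebra A L] [IsScalarTower ℂ A L]
    [IsFractionRing A L] (ht : 2 ≤ Algebra.trdeg ℂ L) (M : Ideal A) (hM : M.IsMaximal) :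
    ∃ P : Ideal A, P.IsPrime ∧ ⊥ < P ∧ P < M := by
  classical
  obtain ⟨s, g, hinj, hint⟩ := exists_integral_inj_algHom_of_fg ℂ A
  let _ : Algebra (MvPolynomial (Fin s) ℂ) A := g.toRingHom.toAlgebra
  have hst : IsScalarTower ℂ (MvPolynomial (Fin s) ℂ) A := by
    refine IsScalarTower.of_algebraMap_eq fun c => ?_
    exact (g.commutes c).symm
  have hI : Algebra.IsIntegral (MvPolynomial (Fin s) ℂ) A := ⟨hint⟩
  have hF : FaithfulSMul (MvPolynomial (Fin s) ℂ) A :=
    (faithfulSMul_iff_algebraMap_injective _ _).2 hinj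
  have hs : 2 ≤ s := by
    let y : Fin s → L := fun i => algebraMap A L (g (MvPolynomial.X i))
    have hcomp : ∀ f : MvPolynomial (Fin s) ℂ, algebraMap A L (g f) = MvPolynomial.aeval y f := by
      intro f
      have h1 : (IsScalarTower.toAlgHom ℂ A L).comp g = MvPolynomial.aeval y := by
        apply MvPolynomial.algHom_ext
        intro i
        simp [y]
      rw [← h1]
      rfl
    have halg : Algebra.IsAlgebraic (Algebra.adjoin ℂ (Set.range y)) L := by
      have h1 : ∀ a : A, IsAlgebraic (Algebra.adjoin ℂ (Set.range y)) (algebraMap A L a) := by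
        intro a
        obtain ⟨q, hq, hq0⟩ := hint a
        let ψ : MvPolynomial (Fin s) ℂ →ₐ[ℂ] Algebra.adjoin ℂ (Set.range y) :=
          (MvPolynomial.aeval y).codRestrict _ fun f => by
            rw [← MvPolynomial.aeval_range]
            exact ⟨f, rfl⟩
        refine ⟨q.map ψ.toRingHom, (hq.map _).ne_zero, ?_⟩
        rw [Polynomial.aeval_def, Polynomial.eval₂_map]
        have h2 : (algebraMap (Algebra.adjoin ℂ (Set.range y)) L).comp ψ.toRingHom =
            (algebraMap A L).comp g.toRingHom := by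
          ext f
          · simp only [RingHom.comp_apply]
            change (MvPolynomial.aeval y (MvPolynomial.C f) : L) = algebraMap A L (g (MvPolynomial.C f))
            rw [hcomp]
          · simp only [RingHom.comp_apply]
            change (MvPolynomial.aeval y (MvPolynomial.X f) : L) = algebraMap A L (g (MvPolynomial.X f))
            rw [hcomp]
        rw [h2, ← Polynomial.hom_eval₂]
        have h3 : Polynomial.eval₂ g.toRingHom a q = 0 := hq0
        rw [h3, map_zero]
      refine ⟨fun z => ?_⟩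
      obtain ⟨a, b, hb, rfl⟩ := IsFractionRing.div_surjective (A := A) z
      rw [div_eq_mul_inv]
      exact (h1 a).mul (h1 b).inv
    have h2 := Algebra.IsAlgebraic.trdeg_le_cardinalMk ℂ (Set.range y)
    have h3 : Cardinal.mk (Set.range y) ≤ s := by
      refine Cardinal.mk_range_le.trans ?_
      simp
    have h4 : (2 : Cardinal) ≤ s := ht.trans (h2.trans h3)
    exact_mod_cast h4
  have hMp : M.IsPrime := hM.isPrime
  have hm : (M.under (MvPolynomial (Fin s) ℂ)).IsMaximal :=
    Ideal.isMaximal_comap_of_isIntegral_of_isMaximal M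
  obtain ⟨p, hp, hp0, hpm⟩ := exists_prime_lt_mvPolynomial hs _ hm
  have : M.LiesOver (M.under (MvPolynomial (Fin s) ℂ)) := ⟨rfl⟩
  obtain ⟨P, hPM, hP, hPp⟩ := Ideal.exists_ideal_lt_liesOver_of_lt (p := p)
    (q := M.under (MvPolynomial (Fin s) ℂ)) M hpm
  refine ⟨P, hP, ?_, hPM⟩
  rw [bot_lt_iff_ne_bot]
  intro h
  apply hp0
  rw [hPp.over, h]
  rw [eq_bot_iff]
  intro f hf
  have h1 : algebraMap (MvPolynomial (Fin s) ℂ) A f = 0 := hf
  rw [Ideal.mem_bot]
  exact hinj (by rw [map_zero]; exact h1)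

theorem two_le_height {A L : Type} [CommRing A] [IsDomain A] [Algebra ℂ A]
    [Algebra.FiniteType ℂ A] [Field L] [Algebra ℂ L] [Algebra A L] [IsScalarTower ℂ A L]
    [IsFractionRing A L] (ht : 2 ≤ Algebra.trdeg ℂ L) (M : Ideal A) (hM : M.IsMaximal) :
    2 ≤ M.height := by
  have hN : IsNoetherianRing A := Algebra.FiniteType.isNoetherianRing ℂ A
  obtain ⟨P, hP, h0, h1⟩ := exists_prime_between ht M hM
  have hMp := hM.isPrime
  have h2 := Ideal.height_strict_mono_of_isPrime_of_isPrime h0
  have h3 := Ideal.height_strict_mono_of_isPrime_of_isPrime h1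
  have h4 : 1 ≤ P.height := Order.one_le_iff_pos.2 (lt_of_le_of_lt zero_le h2)
  have h5 : (1 : ℕ∞) + 1 ≤ M.height := by
    have := Order.add_one_le_of_lt h3
    exact (add_le_add_left h4 1).trans this
  rwa [one_add_one_eq_two] at h5

end Pool.Agent.LibLOB
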