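import Pool.Agent.LibLOB.A1
import Pool.Agent.LibGMM.G3
import Pool.Agent.LibGMM.G4
import Pool.Agent.LibGMM.G5
import Pool.Agent.LibGMM.E0
import Pool.Agent.LibL.Base

/-! LOC-base: the local rings of the closed points of a smooth projective surface; prime ideals of
the charts which are neither zero nor maximal are prime divisors. -/

set_option autoImplicit false

open Pool.Agent.LibGMM Pool.Agent.LibK Pool.Agent.LibL

namespace Pool.Agent.LibLOB

variable {L : Type} [Field L] [Algebra ℂ L]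

theorem chartFT (Y : NormalModel L) (i : Y.ι) : Algebra.FiniteType ℂ (chart Y.g i) := by
  have := Y.fin
  have hfg : (chart Y.g i).FG := by
    refine ⟨(Set.finite_range fun j => (Y.g j : L) / Y.g i).toFinset, ?_⟩
    rw [Set.Finite.coe_toFinset]; rfl
  exact (Subalgebra.fg_iff_finiteType _).1 hfg

theorem chartNoeth (Y : NormalModel L) (i : Y.ι) : IsNoetherianRing (chart Y.g i) := by
  have := chartFT Y i
  exact Algebra.FiniteType.isNoetherianRing ℂ _

theorem chartFrac (Y : NormalModel L) (i : Y.ι) : IsFractionRing (chart Y.g i) L := by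
  refine IsFractionRing.of_field (chart Y.g i) L ?_
  intro z
  obtain ⟨a, ha, b, hb, hb0, hab⟩ := Y.frac i z
  exact ⟨⟨a, ha⟩, ⟨b, hb⟩, hab⟩

theorem chartIC (Y : NormalModel L) (i : Y.ι) : IsIntegrallyClosed (chart Y.g i) := by
  have hF := chartFrac Y i
  rw [isIntegrallyClosed_iff L]
  intro y hy
  exact ⟨⟨y, Y.normal i y hy⟩, rfl⟩

theorem coe_ne_zero_of_notMem (Y : NormalModel L) (p : Y.Pt) {b : chart Y.g p.i} (hb : b ∉ p.P) :
    (b : L) ≠ 0 := by
  intro h
  apply hb
  have : b = 0 := Subtype.ext h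
  rw [this]
  exact p.P.zero_mem

theorem one_notMem_pt (Y : NormalModel L) (p : Y.Pt) : (1 : chart Y.g p.i) ∉ p.P :=
  fun h => p.prime.ne_top ((Ideal.eq_top_iff_one _).2 h)

theorem mul_notMem_pt (Y : NormalModel L) (p : Y.Pt) {a b : chart Y.g p.i} (ha : a ∉ p.P)
    (hb : b ∉ p.P) : a * b ∉ p.P := fun h => (p.prime.mem_or_mem h).elim ha hb

/-- The local ring of `Y` at `p`. -/
def locAlg (Y : NormalModel L) (p : Y.Pt) : Subalgebra ℂ L where
  carrier := Y.loc p
  mul_mem' := fun hx hy => Y.mul_mem_loc p hx hy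
  add_mem' := fun hx hy => Y.add_mem_loc p hx hy
  algebraMap_mem' := fun c => Y.const_mem_loc p c

theorem mem_locAlg {Y : NormalModel L} {p : Y.Pt} {x : L} : x ∈ locAlg Y p ↔ x ∈ Y.loc p := Iff.rfl

theorem chart_le_locAlg (Y : NormalModel L) (p : Y.Pt) : chart Y.g p.i ≤ locAlg Y p := by
  intro a ha
  exact ⟨⟨a, ha⟩, 1, one_notMem_pt Y p, by simp⟩

theorem inv_mem_locAlg {Y : NormalModel L} {p : Y.Pt} {b : chart Y.g p.i} (hb : b ∉ p.P) :
    (b : L)⁻¹ ∈ locAlg Y p := ⟨1, b, hb, by simp⟩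

/-- The local rings of the closed points. -/
def ptsOf (Y : NormalModel L) : Set (Subalgebra ℂ L) :=
  {x | ∃ p : Y.Pt, p.P.IsMaximal ∧ locAlg Y p = x}

variable {Y : NormalModel L}

theorem two_le_height_pt (hY : IsSmoothSurface Y) (p : Y.Pt) (hp : p.P.IsMaximal) :
    2 ≤ p.P.height := by
  have h1 := chartFT Y p.i
  have h2 := chartFrac Y p.i
  exact two_le_height (L := L) (by rw [hY.dim]) p.P hp

theorem height_le_two_pt (hY : IsSmoothSurface Y) (p : Y.Pt) (hp : p.P.IsMaximal) :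
    p.P.height ≤ 2 := by
  classical
  have hN := chartNoeth Y p.i
  obtain ⟨a, ⟨α, s, hα, hs, rfl⟩, b, ⟨β, t, hβ, ht, rfl⟩, h⟩ := hY.smooth p hp
  have hs0 := coe_ne_zero_of_notMem Y p hs
  have ht0 := coe_ne_zero_of_notMem Y p ht
  have hmin : p.P ∈ (Ideal.span (({α, β} : Finset (chart Y.g p.i)) : Set (chart Y.g p.i))).minimalPrimes := by
    refine ⟨⟨p.prime, ?_⟩, ?_⟩
    · rw [Ideal.span_le]
      intro z hz
      simp only [Finset.coe_insert, Finset.coe_singleton, Set.mem_insert_iff,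
        Set.mem_singleton_iff] at hz
      rcases hz with rfl | rfl
      · exact hα
      · exact hβ
    · rintro Q ⟨hQ, hIQ⟩ hQP x hx
      obtain ⟨u, ⟨u1, u2, hu, rfl⟩, v, ⟨v1, v2, hv, rfl⟩, hx'⟩ := h (x : L)
        ⟨x, 1, hx, one_notMem_pt Y p, by simp⟩
      have hu0 := coe_ne_zero_of_notMem Y p hu
      have hv0 := coe_ne_zero_of_notMem Y p hv
      have h1 : x * (u2 * s * (v2 * t)) = u1 * v2 * t * α + v1 * u2 * s * β := by
        apply Subtype.ext
        push_cast
        rw [hx']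
        field_simp
      have hαQ : α ∈ Q := hIQ (Ideal.subset_span (by simp))
      have hβQ : β ∈ Q := hIQ (Ideal.subset_span (by simp))
      have h2 : x * (u2 * s * (v2 * t)) ∈ Q := by
        rw [h1]
        exact Q.add_mem (Q.mul_mem_left _ hαQ) (Q.mul_mem_left _ hβQ)
      rcases hQ.mem_or_mem h2 with h3 | h3
      · exact h3
      · exact absurd (hQP h3) (mul_notMem_pt Y p (mul_notMem_pt Y p hu hs)
          (mul_notMem_pt Y p hv ht))
  refine (Ideal.height_le_card_of_mem_minimalPrimes_span_finset hmin).trans ?_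
  exact_mod_cast Finset.card_le_two

/-- The prime ideals of the charts which are neither zero nor maximal are prime divisors. -/
theorem exists_primeDiv_of_prime (hY : IsSmoothSurface Y) (p : Y.Pt) (h0 : p.P ≠ ⊥)
    (hm : ¬ p.P.IsMaximal) :
    ∃ ν : DVal L, Y.IsPrimeDiv ν ∧ Y.IsCentre ν p ∧ ∀ x, x ∈ Y.loc p ↔ 0 ≤ ν.ord x := by
  classical
  have hN := chartNoeth Y p.i
  have hF := chartFrac Y p.i
  have hI := chartIC Y p.i
  have hPp := p.prime
  obtain ⟨c, hc, hc0⟩ := Submodule.exists_mem_ne_zero_of_ne_bot h0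
  have hc0' : (c : L) ≠ 0 := fun h => hc0 (Subtype.ext h)
  obtain ⟨P', hP', hle, hdvr, -⟩ := exists_dvr_of_not_mem (K := L) p.P ((c : L)⁻¹) (by
    intro a b hb hab
    have hb0 : (b : L) ≠ 0 := coe_ne_zero_of_notMem Y p hb
    apply hb
    have h1 : b = a * c := by
      apply Subtype.ext
      have h2 : (c : L)⁻¹ = (a : L) / (b : L) := hab
      push_cast
      field_simp at h2
      rw [h2, mul_comm]
    rw [h1]
    exact p.P.mul_mem_left _ hc)
  obtain ⟨ν, hν, hν'⟩ := dval_of_dvr (chart Y.g p.i) (Y.frac p.i) P'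
  -- `P' ≠ 0`
  have hP'0 : P' ≠ ⊥ := by
    intro h
    obtain ⟨t, ht⟩ := ν.exists_ord_one
    obtain ⟨a, b, hb, hab⟩ := hν' t (by rw [ht]; exact zero_le_one)
    have ht0 : t ≠ 0 := by
      rintro rfl
      rw [ν.ord_zero] at ht
      exact zero_ne_one ht
    have hb0 : (b : L) ≠ 0 := by
      intro h1
      exact hb (by rw [Subtype.ext h1 (a2 := (0 : chart Y.g p.i))]; exact P'.zero_mem)
    have ha0 : (a : L) ≠ 0 := by
      intro h1
      rw [h1, zero_div] at hab
      exact ht0 hab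
    have h1 : ν.ord (b : L) = 0 := by
      have h2 := (hν b).1
      have h3 : ¬ (0 < ν.ord (b : L)) := fun h4 => hb ((hν b).2.2 (Or.inr h4))
      omega
    have h2 : ν.ord (a : L) = 1 := by
      have h3 := ν.ord_div ha0 hb0
      rw [← hab, ht, h1] at h3
      omega
    have h3 : a ∈ P' := (hν a).2.2 (Or.inr (by omega))
    rw [h, Ideal.mem_bot] at h3
    exact ha0 (by rw [h3]; rfl)
  have hPP : P' = p.P := by
    by_contra hne
    have h1 : P' < p.P := lt_of_le_of_ne hle hne
    obtain ⟨M, hM, hPM⟩ := Ideal.exists_le_maximal p.P hPp.ne_top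
    have hMp := hM.isPrime
    have h2 : p.P < M := lt_of_le_of_ne hPM (by
      rintro rfl
      exact hm hM)
    have h3 : (⊥ : Ideal (chart Y.g p.i)) < P' := bot_lt_iff_ne_bot.2 hP'0
    have h4 := height_le_two_pt hY ⟨p.i, M, hMp⟩ hM
    have hfh : ∀ Q : Ideal (chart Y.g p.i), Q ≤ M → Q.FiniteHeight := by
      intro Q hQ
      refine ⟨Or.inr (lt_of_le_of_lt (Ideal.height_mono hQ) (lt_of_le_of_lt h4 ?_)).ne⟩
      exact ENat.natCast_lt_top 2
    have f1 := hfh _ le_rfl
    have f2 := hfh _ hPM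
    have f3 := hfh _ (hle.trans hPM)
    have f4 := hfh _ (h3.le.trans (hle.trans hPM))
    have g1 := Ideal.height_strict_mono_of_isPrime_of_isPrime h3
    have g2 := Ideal.height_strict_mono_of_isPrime_of_isPrime h1
    have g3 := Ideal.height_strict_mono_of_isPrime_of_isPrime h2
    have k1 : (1 : ℕ∞) ≤ P'.height := Order.one_le_iff_pos.2 (lt_of_le_of_lt zero_le g1)
    have k2 : (2 : ℕ∞) ≤ p.P.height := by
      have := Order.add_one_le_of_lt g2
      refine le_trans ?_ this
      rw [← one_add_one_eq_two]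
      gcongr
    have k3 : (3 : ℕ∞) ≤ M.height := by
      have := Order.add_one_le_of_lt g3
      refine le_trans ?_ this
      rw [← two_add_one_eq_three]
      gcongr
    have k4 : (3 : ℕ∞) ≤ 2 := k3.trans h4
    exact absurd k4 (by decide)
  subst hPP
  have hcen : Y.IsCentre ν p := fun a => hν a
  refine ⟨ν, ⟨p, hcen, fun x hx => ?_⟩, hcen, fun x => ⟨fun hx => ?_, fun hx => ?_⟩⟩
  · obtain ⟨a, b, hb, h⟩ := hν' x hx
    exact ⟨a, b, hb, h⟩
  · exact Y.loc_le_of_isCentre ν p hcen x hx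
  · obtain ⟨a, b, hb, h⟩ := hν' x hx
    exact ⟨a, b, hb, h⟩

end Pool.Agent.LibLOB
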