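import Pool.Agent.LibLOB.A2
import Pool.Agent.LibLB.Defs

/-! LOC-base: the local rings of the closed points of a smooth projective surface are regular of
dimension two (`RLR`). -/

set_option autoImplicit false

open Pool.Agent.LibGMM Pool.Agent.LibK Pool.Agent.LibL Pool.Agent.LibLB

namespace Pool.Agent.LibLOB

open IsLocalRing in
theorem not_height_le_one_of_pow {R : Type*} [CommRing R] [IsNoetherianRing R] [IsLocalRing R]
    (a b : R) (hm : maximalIdeal R = Ideal.span {a, b}) (n : ℕ) (h : b ^ n ∈ Ideal.span {a}) :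
    (maximalIdeal R).height ≤ 1 := by
  refine Ideal.height_le_one_of_isPrincipal_of_mem_minimalPrimes (Ideal.span {a}) _
    ⟨⟨inferInstance, ?_⟩, ?_⟩
  · rw [Ideal.span_le, Set.singleton_subset_iff, hm]
    exact Ideal.subset_span (by simp)
  · rintro Q ⟨hQ, hIQ⟩ hQm
    rw [hm, Ideal.span_le]
    intro z hz
    simp only [Set.mem_insert_iff, Set.mem_singleton_iff] at hz
    rcases hz with rfl | rfl
    · exact hIQ (Ideal.mem_span_singleton_self _)
    · exact hQ.mem_of_pow_mem _ (hIQ h)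

open IsLocalRing in
/-- A system of parameters of a two-dimensional regular local ring is a regular sequence. -/
theorem reg_aux {R : Type*} [CommRing R] [IsNoetherianRing R] [IsLocalRing R]
    (a b : R) (hm : maximalIdeal R = Ideal.span {a, b}) (h2 : ¬ (maximalIdeal R).height ≤ 1)
    (p q : R) (h : a * p = b * q) : ∃ r, q = a * r := by
  classical
  by_contra hq
  push Not at hq
  have hbm : b ∈ maximalIdeal R := by rw [hm]; exact Ideal.subset_span (by simp)
  have hI : Ideal.span {b} ≠ ⊤ := by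
    intro h1
    have h2 : (1 : R) ∈ Ideal.span {b} := h1 ▸ Submodule.mem_top
    obtain ⟨c, hc⟩ := Ideal.mem_span_singleton'.1 h2
    have h3 : (1 : R) ∈ maximalIdeal R := by
      rw [← hc]
      exact Ideal.mul_mem_left _ _ hbm
    exact (Ideal.ne_top_iff_one _).1 (maximalIdeal.isMaximal R).ne_top h3
  have hex : ∃ k : ℕ, ¬ ∃ r s, q = a * r + b ^ k * s := by
    by_contra hcon
    push Not at hcon
    have h1 := Ideal.iInf_pow_smul_eq_bot_of_isLocalRing (R := R) (M := R ⧸ Ideal.span {a})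
      (Ideal.span {b}) hI
    have h3 : (Ideal.Quotient.mk (Ideal.span {a}) q) ∈
        (⨅ i : ℕ, (Ideal.span {b}) ^ i • ⊤ : Submodule R (R ⧸ Ideal.span {a})) := by
      rw [Submodule.mem_iInf]
      intro k
      obtain ⟨r, s, hrs⟩ := hcon k
      have h4 : Ideal.Quotient.mk (Ideal.span {a}) q =
          b ^ k • Ideal.Quotient.mk (Ideal.span {a}) s := by
        rw [hrs, map_add, map_mul, map_mul, Ideal.Quotient.eq_zero_iff_mem.2
          (Ideal.mem_span_singleton_self a), zero_mul, zero_add]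
        rw [Algebra.smul_def]
        rfl
      rw [h4]
      exact Submodule.smul_mem_smul (Ideal.pow_mem_pow (Ideal.mem_span_singleton_self b) k)
        Submodule.mem_top
    rw [h1, Submodule.mem_bot, Ideal.Quotient.eq_zero_iff_mem, Ideal.mem_span_singleton'] at h3
    obtain ⟨r, hr⟩ := h3
    exact hq r (by rw [← hr, mul_comm])
  obtain ⟨k, hk, hmin⟩ : ∃ k : ℕ, (¬ ∃ r s, q = a * r + b ^ k * s) ∧
      ∀ j < k, ∃ r s, q = a * r + b ^ j * s := by
    refine ⟨Nat.find hex, Nat.find_spec hex, fun j hj => ?_⟩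
    have := Nat.find_min hex hj
    push Not at this
    exact this
  have hk0 : k ≠ 0 := by
    rintro rfl
    exact hk ⟨0, q, by simp⟩
  obtain ⟨j, rfl⟩ := Nat.exists_eq_succ_of_ne_zero hk0
  obtain ⟨r, s, hrs⟩ := hmin j (Nat.lt_succ_self j)
  have hs : IsUnit s := by
    by_contra hs
    have h1 : s ∈ maximalIdeal R := (mem_maximalIdeal s).2 hs
    rw [hm, Ideal.mem_span_pair] at h1
    obtain ⟨s1, s2, h3⟩ := h1
    refine hk ⟨r + b ^ j * s1, s2, ?_⟩
    rw [hrs, ← h3, pow_succ]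
    ring
  obtain ⟨s', hs'⟩ := hs.exists_right_inv
  apply h2
  refine not_height_le_one_of_pow a b hm (j + 1) ?_
  rw [Ideal.mem_span_singleton']
  refine ⟨(p - b * r) * s', ?_⟩
  have h3 : b * q = a * b * r + b ^ (j + 1) * s := by rw [hrs]; ring
  have h4 : b ^ (j + 1) * s = a * (p - b * r) := by
    rw [mul_sub, h, h3]; ring
  calc (p - b * r) * s' * a = (a * (p - b * r)) * s' := by ring
    _ = (b ^ (j + 1) * s) * s' := by rw [h4]
    _ = b ^ (j + 1) * (s * s') := by ring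
    _ = b ^ (j + 1) := by rw [hs', mul_one]

variable {L : Type} [Field L] [Algebra ℂ L]

/-- The residue field of a closed point is `ℂ`. -/
theorem exists_const (Y : NormalModel L) (p : Y.Pt) (hp : p.P.IsMaximal) (u : chart Y.g p.i) :
    ∃ c : ℂ, u - algebraMap ℂ _ c ∈ p.P := by
  have h1 := chartFT Y p.i
  have h2 : Algebra.FiniteType ℂ (chart Y.g p.i ⧸ p.P) :=
    Algebra.FiniteType.of_surjective (Ideal.Quotient.mkₐ ℂ p.P) Ideal.Quotient.mk_surjective
  let _ : Field (chart Y.g p.i ⧸ p.P) := Ideal.Quotient.field p.P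
  have h3 : Module.Finite ℂ (chart Y.g p.i ⧸ p.P) := finite_of_finite_type_of_isJacobsonRing _ _
  have h4 : Algebra.IsIntegral ℂ (chart Y.g p.i ⧸ p.P) := Algebra.IsIntegral.of_finite _ _
  obtain ⟨c, hc⟩ := (IsAlgClosed.algebraMap_bijective_of_isIntegral (k := ℂ)
    (K := chart Y.g p.i ⧸ p.P)).2 (Ideal.Quotient.mk p.P u)
  refine ⟨c, ?_⟩
  rw [← Ideal.Quotient.eq_zero_iff_mem, map_sub, sub_eq_zero, ← hc]
  rfl

/-- The inclusion of the chart into the local ring. -/
@[reducible] noncomputable def chartAlg (Y : NormalModel L) (p : Y.Pt) :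
    Algebra (chart Y.g p.i) (locAlg Y p) :=
  (Subalgebra.inclusion (chart_le_locAlg Y p)).toRingHom.toAlgebra

theorem locAlg_isLocalization (Y : NormalModel L) (p : Y.Pt) (hp : p.P.IsPrime) :
    @IsLocalization.AtPrime _ _ (locAlg Y p) _ (chartAlg Y p) p.P hp := by
  let _ := chartAlg Y p
  have hcoe : ∀ a : chart Y.g p.i, ((algebraMap _ (locAlg Y p) a : locAlg Y p) : L) = a :=
    fun a => rfl
  refine { map_units := ?_, surj := ?_, exists_of_eq := ?_ }
  · rintro ⟨b, hb⟩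
    have hb' : b ∉ p.P := hb
    have hb0 := coe_ne_zero_of_notMem Y p hb'
    refine IsUnit.of_mul_eq_one ⟨(b : L)⁻¹, inv_mem_locAlg hb'⟩ ?_
    apply Subtype.ext
    change (b : L) * (b : L)⁻¹ = 1
    exact mul_inv_cancel₀ hb0
  · rintro ⟨z, a, b, hb, rfl⟩
    refine ⟨(a, ⟨b, hb⟩), ?_⟩
    have hb0 := coe_ne_zero_of_notMem Y p hb
    apply Subtype.ext
    change (a : L) / b * b = a
    field_simp
  · intro a b hab
    refine ⟨1, ?_⟩
    have h1 : (a : L) = b := congrArg (Subtype.val : locAlg Y p → L) hab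
    rw [Subtype.ext h1]

theorem locAlg_isLocalRing (Y : NormalModel L) (p : Y.Pt) : IsLocalRing (locAlg Y p) := by
  let _ := chartAlg Y p
  have hp := p.prime
  have := locAlg_isLocalization Y p hp
  exact IsLocalization.AtPrime.isLocalRing (locAlg Y p) p.P

theorem locAlg_noeth (Y : NormalModel L) (p : Y.Pt) : IsNoetherianRing (locAlg Y p) := by
  let _ := chartAlg Y p
  have hp := p.prime
  have := locAlg_isLocalization Y p hp
  have := chartNoeth Y p.i
  exact IsLocalization.isNoetherianRing p.P.primeCompl (locAlg Y p) inferInstance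

theorem mem_maxLoc_iff (Y : NormalModel L) (p : Y.Pt) (x : locAlg Y p) :
    (x : L) ∈ maxLoc Y p ↔ ¬ IsUnit x := by
  constructor
  · rintro ⟨a, b, ha, hb, hx⟩ hu
    obtain ⟨y, hy⟩ := hu.exists_right_inv
    obtain ⟨c, d, hd, hc⟩ := y.2
    have hb0 := coe_ne_zero_of_notMem Y p hb
    have hd0 := coe_ne_zero_of_notMem Y p hd
    have h1 : (x : L) * (y : L) = 1 := congrArg Subtype.val hy
    rw [hx, hc] at h1
    field_simp at h1
    have h2 : a * c = b * d := Subtype.ext (by push_cast; exact h1)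
    exact mul_notMem_pt Y p hb hd (h2 ▸ p.P.mul_mem_right _ ha)
  · intro hu
    obtain ⟨a, b, hb, hx⟩ := x.2
    by_contra hcon
    have ha : a ∉ p.P := fun ha => hcon ⟨a, b, ha, hb, hx⟩
    have ha0 := coe_ne_zero_of_notMem Y p ha
    have hb0 := coe_ne_zero_of_notMem Y p hb
    apply hu
    refine IsUnit.of_mul_eq_one ⟨(b : L) / a, ⟨b, a, ha, rfl⟩⟩ (Subtype.ext ?_)
    change (x : L) * ((b : L) / a) = 1
    rw [hx]
    field_simp

theorem two_le_height_maximalIdeal {Y : NormalModel L} (hY : IsSmoothSurface Y) (p : Y.Pt)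
    (hp : p.P.IsMaximal) :
    ¬ (@IsLocalRing.maximalIdeal (locAlg Y p) _ (locAlg_isLocalRing Y p)).height ≤ 1 := by
  let _ := chartAlg Y p
  have hpp := p.prime
  have h1 := locAlg_isLocalization Y p hpp
  have h2 := locAlg_isLocalRing Y p
  intro h
  have h3 := IsLocalization.AtPrime.ringKrullDim_eq_height p.P (locAlg Y p)
  rw [← IsLocalRing.maximalIdeal_height_eq_ringKrullDim] at h3
  have h4 : (IsLocalRing.maximalIdeal (locAlg Y p)).height = p.P.height := by exact_mod_cast h3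
  have h5 := two_le_height_pt hY p hp
  rw [← h4] at h5
  exact absurd (h5.trans h) (by decide)

/-- The parameters at a closed point. -/
theorem rlr_locAlg {Y : NormalModel L} (hY : IsSmoothSurface Y) (p : Y.Pt) (hp : p.P.IsMaximal) :
    ∃ a b, RLR (locAlg Y p) a b := by
  classical
  have hloc := locAlg_isLocalRing Y p
  have hN := locAlg_noeth Y p
  obtain ⟨a, ha, b, hb, h⟩ := hY.smooth p hp
  have haL : a ∈ locAlg Y p := by
    obtain ⟨a1, a2, _, h2, h3⟩ := ha
    exact ⟨a1, a2, h2, h3⟩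
  have hbL : b ∈ locAlg Y p := by
    obtain ⟨a1, a2, _, h2, h3⟩ := hb
    exact ⟨a1, a2, h2, h3⟩
  have hmax : ∀ x ∈ maxLoc Y p, ∃ u ∈ locAlg Y p, ∃ v ∈ locAlg Y p, x = a * u + b * v := by
    intro x hx
    obtain ⟨u, hu, v, hv, h1⟩ := h x hx
    exact ⟨u, hu, v, hv, by rw [h1]; ring⟩
  have hm : IsLocalRing.maximalIdeal (locAlg Y p) =
      Ideal.span {(⟨a, haL⟩ : locAlg Y p), ⟨b, hbL⟩} := by
    apply le_antisymm
    · intro x hx
      rw [IsLocalRing.mem_maximalIdeal] at hx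
      obtain ⟨u, hu, v, hv, h1⟩ := hmax x ((mem_maxLoc_iff Y p x).2 hx)
      rw [Ideal.mem_span_pair]
      refine ⟨⟨u, hu⟩, ⟨v, hv⟩, Subtype.ext ?_⟩
      change u * a + v * b = x
      rw [h1]; ring
    · rw [Ideal.span_le]
      intro z hz
      simp only [Set.mem_insert_iff, Set.mem_singleton_iff] at hz
      rcases hz with rfl | rfl
      · exact (IsLocalRing.mem_maximalIdeal _).2 ((mem_maxLoc_iff Y p _).1 ha)
      · exact (IsLocalRing.mem_maximalIdeal _).2 ((mem_maxLoc_iff Y p _).1 hb)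
  have h2 := two_le_height_maximalIdeal hY p hp
  refine ⟨a, b, haL, hbL, ?_, ?_, ?_, ?_, ?_, ?_, ?_, hY.dim⟩
  · intro z
    obtain ⟨u, hu, v, hv, hv0, hz⟩ := Y.frac p.i z
    exact ⟨u, chart_le_locAlg Y p hu, v, chart_le_locAlg Y p hv, hv0, hz⟩
  · rintro u ⟨u1, u2, hu2, rfl⟩
    obtain ⟨c1, hc1⟩ := exists_const Y p hp u1
    obtain ⟨c2, hc2⟩ := exists_const Y p hp u2
    have hu0 := coe_ne_zero_of_notMem Y p hu2
    have hc20 : c2 ≠ 0 := by
      rintro rfl
      rw [map_zero, sub_zero] at hc2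
      exact hu2 hc2
    have hc20' : algebraMap ℂ L c2 ≠ 0 := (map_ne_zero _).2 hc20
    have hmem : (u1 : L) / u2 - algebraMap ℂ L (c1 / c2) ∈ maxLoc Y p := by
      refine ⟨(u1 - algebraMap ℂ _ c1) * algebraMap ℂ _ c2 - (u2 - algebraMap ℂ _ c2) *
        algebraMap ℂ _ c1, u2 * algebraMap ℂ _ c2, ?_, ?_, ?_⟩
      · exact p.P.sub_mem (p.P.mul_mem_right _ hc1) (p.P.mul_mem_right _ hc2)
      · refine mul_notMem_pt Y p hu2 fun h3 => ?_
        apply p.prime.ne_top
        refine Ideal.eq_top_of_isUnit_mem _ h3 ?_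
        exact (isUnit_iff_ne_zero.2 hc20).map _
      · have e1 : ((algebraMap ℂ (chart Y.g p.i) c1 : chart Y.g p.i) : L) = algebraMap ℂ L c1 := rfl
        have e2 : ((algebraMap ℂ (chart Y.g p.i) c2 : chart Y.g p.i) : L) = algebraMap ℂ L c2 := rfl
        rw [map_div₀]
        push_cast
        field_simp
        ring
    obtain ⟨q1, hq1, q2, hq2, h3⟩ := hmax _ hmem
    refine ⟨c1 / c2, q1, hq1, q2, hq2, ?_⟩
    rw [add_assoc, ← h3]
    ring
  · intro u hu
    by_cases hun : IsUnit (⟨u, hu⟩ : locAlg Y p)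
    · left
      obtain ⟨v, hv⟩ := hun.exists_right_inv
      have h3 : u * (v : L) = 1 := congrArg Subtype.val hv
      rw [inv_eq_of_mul_eq_one_right h3]
      exact v.2
    · right
      exact hmax u ((mem_maxLoc_iff Y p ⟨u, hu⟩).2 hun)
  · intro q1 hq1 q2 hq2 h3
    have h4 : (1 : locAlg Y p) ∈ IsLocalRing.maximalIdeal (locAlg Y p) := by
      rw [hm, Ideal.mem_span_pair]
      refine ⟨⟨q1, hq1⟩, ⟨q2, hq2⟩, Subtype.ext ?_⟩
      change q1 * a + q2 * b = 1
      rw [← h3]; ring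
    exact (Ideal.ne_top_iff_one _).1 (IsLocalRing.maximalIdeal.isMaximal _).ne_top h4
  · rintro rfl
    apply h2
    have h3 : IsLocalRing.maximalIdeal (locAlg Y p) =
        Ideal.span {(⟨b, hbL⟩ : locAlg Y p), (⟨0, haL⟩ : locAlg Y p)} := by
      rw [hm, Set.pair_comm]
    refine not_height_le_one_of_pow _ _ h3 1 ?_
    rw [pow_one]
    have h4 : (⟨0, haL⟩ : locAlg Y p) = 0 := rfl
    rw [h4]
    exact Submodule.zero_mem _
  · intro q1 hq1 q2 hq2 h3
    obtain ⟨r, hr⟩ := reg_aux (⟨a, haL⟩ : locAlg Y p) ⟨b, hbL⟩ hm h2 ⟨q1, hq1⟩ ⟨q2, hq2⟩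
      (Subtype.ext h3)
    exact ⟨r, r.2, congrArg Subtype.val hr⟩
  · refine ⟨chart Y.g p.i, ?_, chart_le_locAlg Y p, ?_⟩
    · exact (Subalgebra.fg_iff_finiteType _).2 (chartFT Y p.i)
    · rintro u ⟨v, w, hw, rfl⟩
      exact ⟨v, v.2, w, w.2, coe_ne_zero_of_notMem Y p hw, inv_mem_locAlg hw, rfl⟩

end Pool.Agent.LibLOB
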