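import Pool.Agent.LibLOB.A4

/-! LOC-base: prime divisors are divisorial. -/

set_option autoImplicit false

open Pool.Agent.LibGMM Pool.Agent.LibK Pool.Agent.LibL Pool.Agent.LibLB Pool.Agent.LibKB

namespace Pool.Agent.LibLOB

variable {L : Type} [Field L] [Algebra ℂ L]

theorem divisorial_primes (Y : NormalModel L) {ν : DVal L} (hν : ν ∈ primes Y) : ν.Divisorial := by
  obtain ⟨p, hp⟩ := Y.exists_centre ν
  refine ⟨chart Y.g p.i, (Subalgebra.fg_iff_finiteType _).2 (chartFT Y p.i), fun a ha =>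
    (hp ⟨a, ha⟩).1, fun x hx => ?_⟩
  obtain ⟨a, b, hb, hab⟩ := Y.mem_loc_of_isCentre ν hν p hp x hx
  have h3 := hp b
  have h4 : ¬ (b = 0 ∨ 0 < ν.ord (b : L)) := fun h => hb (h3.2.2 h)
  push Not at h4
  exact ⟨a, a.2, b, b.2, coe_ne_zero_of_notMem Y p hb, le_antisymm h4.2 h3.1, hab⟩

/-- `Through` in terms of local rings. -/
theorem through_iff (Y : NormalModel L) (p : Y.Pt) (ν : DVal L) :
    Y.Through ν p ↔ locAlg Y p ≤ ν.ring := Iff.rfl

/-- An element of `L` which has no poles along the prime divisors through `p` is in the local ring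
of `p`. -/
theorem mem_locAlg_iff (Y : NormalModel L) (p : Y.Pt) (f : L) :
    f ∈ locAlg Y p ↔ ∀ ν ∈ primes Y, locAlg Y p ≤ ν.ring → 0 ≤ ν.ord f :=
  ⟨fun hf _ _ h => h hf, fun h => Y.mem_loc p f fun Q hQ hT => h Q hQ hT⟩

end Pool.Agent.LibLOB
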